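import Pool.Agent.W398.SG.StmC

set_option autoImplicit false

namespace Pool.Agent.W737.SG.Tau

open Pool.Agent.W37.SG Pool.Agent.W398.SG.C

theorem main : S_TAU := by
  intro p _ P _ H k e he hU Φ hΦ v hv
  by_contra hcon
  push Not at hcon
  -- the coordinates
  set pr : P ⧸ H → (Fin v → ZMod p) := fun y j => e y ⟨j, j.2.trans hv⟩ with hpr
  set cv : P ⧸ H → ZMod p := fun y => e y ⟨v, hv⟩ with hcv
  set sec : (Fin v → ZMod p) → P ⧸ H := fun u => e.symm (fun j : Fin k => ext0 p v u j) with hsec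
  have hes : ∀ u (j : Fin k), e (sec u) j = ext0 p v u j := fun u j => by
    simp only [hsec, Equiv.apply_symm_apply]
  have hprsec : ∀ u, pr (sec u) = u := by
    intro u
    funext j
    simp only [hpr, hes]
    simp [ext0, j.2]
  have hcvsec : ∀ u, cv (sec u) = 0 := by
    intro u
    simp only [hcv, hes]
    simp [ext0]
  have hagree : ∀ (y y' : P ⧸ H), pr y = pr y' → ∀ j : Fin k, (j : ℕ) < v → e y j = e y' j := by
    intro y y' h j hj
    exact congrFun h ⟨j, hj⟩
  have hcvg : ∀ (g : P) (y : P ⧸ H), cv (g • y) = cv y + cv (g • sec (pr y)) := by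
    intro g y
    have h := he g ⟨v, hv⟩ y (sec (pr y)) (fun j hj => hagree _ _ (hprsec (pr y)).symm j hj)
    have h2 : cv (sec (pr y)) = 0 := hcvsec _
    simp only [hcv] at h2 ⊢
    rw [h2, sub_zero] at h
    rw [← h]
    ring
  have hprg : ∀ (g : P) (y : P ⧸ H), pr (g • y) = pr (g • sec (pr y)) := by
    intro g y
    funext j
    have h := he g ⟨j, j.2.trans hv⟩ y (sec (pr y)) (fun i hi => hagree _ _ (hprsec (pr y)).symm i
      (lt_trans hi j.2))
    have h2 : e y ⟨j, j.2.trans hv⟩ = e (sec (pr y)) ⟨j, j.2.trans hv⟩ :=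
      hagree _ _ (hprsec (pr y)).symm _ j.2
    rw [h2] at h
    exact sub_left_injective h
  have hbij : ∀ g : P, Function.Bijective (fun u => pr (g • sec u)) := by
    intro g
    have key : ∀ (g : P) (u : Fin v → ZMod p), pr (g⁻¹ • sec (pr (g • sec u))) = u := by
      intro g u
      rw [← hprg, inv_smul_smul, hprsec]
    refine ⟨Function.LeftInverse.injective (g := fun u => pr (g⁻¹ • sec u)) (key g), ?_⟩
    have h3 := key g⁻¹
    simp only [inv_inv] at h3
    exact Function.RightInverse.surjective (g := fun u => pr (g⁻¹ • sec u)) h3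
  have htau : ∀ g : P, ∑ u : Fin v → ZMod p, cv (g • sec u) = 0 := by
    intro g
    rw [← hcon g]
    unfold tau
    refine Finset.sum_congr rfl fun u _ => ?_
    have h := hΦ g (ext0 p v u) ⟨v, hv⟩
    simp only at h
    rw [h]
    simp [hcv, hsec, ext0]
  -- the two submodules
  let M2 : Submodule (ZMod p) (P ⧸ H → ZMod p) :=
    { carrier := {f | ∃ φ : (Fin v → ZMod p) → ZMod p, ∀ y, f y = φ (pr y)}
      add_mem' := by
        rintro f f' ⟨φ, h⟩ ⟨φ', h'⟩
        exact ⟨fun u => φ u + φ' u, fun y => by simp [h, h']⟩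
      zero_mem' := ⟨fun _ => 0, fun y => rfl⟩
      smul_mem' := by
        rintro c f ⟨φ, h⟩
        exact ⟨fun u => c * φ u, fun y => by simp [h]⟩ }
  let M1 : Submodule (ZMod p) (P ⧸ H → ZMod p) :=
    { carrier := {f | ∃ (φ : (Fin v → ZMod p) → ZMod p) (b : ZMod p), ∑ u, φ u = 0 ∧
        ∀ y, f y = φ (pr y) + b * cv y}
      add_mem' := by
        rintro f f' ⟨φ, b, h0, h⟩ ⟨φ', b', h0', h'⟩
        refine ⟨fun u => φ u + φ' u, b + b', ?_, fun y => ?_⟩
        · rw [Finset.sum_add_distrib, h0, h0', add_zero]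
        · rw [Pi.add_apply, h, h']
          ring
      zero_mem' := ⟨fun _ => 0, 0, by simp, fun y => by simp⟩
      smul_mem' := by
        rintro c f ⟨φ, b, h0, h⟩
        refine ⟨fun u => c * φ u, c * b, ?_, fun y => ?_⟩
        · rw [← Finset.mul_sum, h0, mul_zero]
        · rw [Pi.smul_apply, h, smul_eq_mul]
          ring }
  have hM1 : ∀ f, f ∈ M1 ↔ ∃ (φ : (Fin v → ZMod p) → ZMod p) (b : ZMod p), ∑ u, φ u = 0 ∧
      ∀ y, f y = φ (pr y) + b * cv y := fun f => Iff.rfl
  have hM2 : ∀ f, f ∈ M2 ↔ ∃ φ : (Fin v → ZMod p) → ZMod p, ∀ y, f y = φ (pr y) :=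
    fun f => Iff.rfl
  have hi1 : ∀ g : P, ∀ f ∈ M1, (fun c : P ⧸ H => f (g • c)) ∈ M1 := by
    intro g f hf
    obtain ⟨φ, b, h0, h⟩ := (hM1 f).1 hf
    refine (hM1 _).2 ⟨fun u => φ (pr (g • sec u)) + b * cv (g • sec u), b, ?_, fun y => ?_⟩
    · rw [Finset.sum_add_distrib, ← Finset.mul_sum, htau, mul_zero, add_zero]
      rw [← h0]
      exact Function.Bijective.sum_comp (hbij g) φ
    · rw [h, hcvg g y, hprg g y]
      ring
  have hi2 : ∀ g : P, ∀ f ∈ M2, (fun c : P ⧸ H => f (g • c)) ∈ M2 := by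
    intro g f hf
    obtain ⟨φ, h⟩ := (hM2 f).1 hf
    exact (hM2 _).2 ⟨fun u => φ (pr (g • sec u)), fun y => by rw [h, hprg g y]⟩
  -- two points with the same `pr`
  set y1 : P ⧸ H := e.symm (fun _ => 0) with hy1
  set y2 : P ⧸ H := e.symm (fun j => if (j : ℕ) = v then 1 else 0) with hy2
  have hpr1 : pr y1 = 0 := by
    funext j
    simp [hpr, hy1]
  have hpr2 : pr y2 = 0 := by
    funext j
    have : (j : ℕ) ≠ v := j.2.ne
    simp [hpr, hy2, this]
  have hcv1 : cv y1 = 0 := by simp [hcv, hy1]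
  have hcv2 : cv y2 = 1 := by simp [hcv, hy2]
  rcases hU M1 M2 hi1 hi2 with hle | hle
  · have h1 : cv ∈ M1 := (hM1 _).2 ⟨fun _ => 0, 1, by simp, fun y => by simp⟩
    obtain ⟨φ, h⟩ := (hM2 _).1 (hle h1)
    have ha := h y1
    have hb := h y2
    rw [hcv1, hpr1] at ha
    rw [hcv2, hpr2, ← ha] at hb
    exact one_ne_zero hb
  · classical
    have h1 : (fun y => (if pr y = 0 then 1 else 0 : ZMod p)) ∈ M2 :=
      (hM2 _).2 ⟨fun u => if u = 0 then 1 else 0, fun y => rfl⟩
    obtain ⟨φ, b, h0, h⟩ := (hM1 _).1 (hle h1)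
    have ha := h y1
    have hb := h y2
    simp only [hpr1, hcv1, if_true, mul_zero, add_zero] at ha
    simp only [hpr2, hcv2, if_true, mul_one] at hb
    rw [← ha] at hb
    have hb0 : b = 0 := by
      have h5 : (1 : ZMod p) + b = 1 := hb.symm
      simpa using h5
    subst hb0
    have hφ : ∀ u, φ u = if u = 0 then 1 else 0 := by
      intro u
      have h6 := h (sec u)
      rw [hprsec, zero_mul, add_zero] at h6
      exact h6.symm
    simp only [hφ, Finset.sum_ite_eq', Finset.mem_univ, if_true] at h0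
    exact one_ne_zero h0

end Pool.Agent.W737.SG.Tau
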